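import Pool.Agent.H28.MCB.Targets
import Pool.Agent.H86.MCL.DTA

/-!
Row DA1 of the project MCB (`MP_c59857_nt`): one interval, many clusters.
-/

set_option autoImplicit false

open Pool.Agent.H28.MCL Pool.Agent.H28.MCB Finset Filter

namespace Pool.Agent.H44.MCB

open Pool.Agent.H86.MCL (ind_nonneg ind_le_one bc_nonneg bc_le_one bb_nonneg vv vv_nonneg
  vv_le_one vv_sum prod_yy sum_D sum_abs)

theorem bb_le_one {m : ℕ} (D W : ℕ) (hD : 2 ≤ D) (κ : ℝ) (h : ℕ) (A : Fin m → Finset ℕ)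
    (g : Fin m → ℕ → ℝ) (z : ℕ) : bb D W κ h A g z ≤ 1 := by
  unfold bb
  have h1 : (0 : ℝ) < (D : ℝ) - 1 := by
    have : (2 : ℝ) ≤ D := by exact_mod_cast hD
    linarith
  have h2 : ∑ l : Fin m, ∑ j ∈ Finset.Ico 1 D, bc W κ h A g l j z ≤ (m : ℝ) * ((D : ℝ) - 1) := by
    calc ∑ l : Fin m, ∑ j ∈ Finset.Ico 1 D, bc W κ h A g l j z
        ≤ ∑ _l : Fin m, ∑ _j ∈ Finset.Ico 1 D, (1 : ℝ) :=
          Finset.sum_le_sum fun l _ => Finset.sum_le_sum fun j _ => bc_le_one _ _ _ _ _ _ _ _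
      _ = (m : ℝ) * ((D : ℝ) - 1) := by
          rw [Finset.sum_const, Finset.sum_const, Nat.card_Ico, Finset.card_univ,
            Fintype.card_fin, nsmul_eq_mul, nsmul_eq_mul, mul_one, Nat.cast_sub (by omega),
            Nat.cast_one]
  rcases Nat.eq_zero_or_pos m with h0 | h0
  · subst h0
    simp
  · have h3 : (0 : ℝ) < (m : ℝ) * ((D : ℝ) - 1) := by
      have : (0 : ℝ) < m := by exact_mod_cast h0
      positivity
    rw [one_div, inv_mul_le_iff₀ h3, mul_one]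
    exact h2

theorem av_nonneg (T : ℕ) (b : ℕ → ℝ) (hb : ∀ n, 0 ≤ b n) (n : ℕ) : 0 ≤ av T b n :=
  mul_nonneg (by positivity) (Finset.sum_nonneg fun s _ => hb _)

theorem av_le_one (T : ℕ) (b : ℕ → ℝ) (hb : ∀ n, b n ≤ 1) (n : ℕ) : av T b n ≤ 1 := by
  unfold av
  have h1 : ∑ s ∈ Finset.Icc 1 T, b (n + s) ≤ (T : ℝ) := by
    calc _ ≤ ∑ s ∈ Finset.Icc 1 T, (1 : ℝ) := Finset.sum_le_sum (fun a _ => hb _)
    _ = _ := by simp
  rcases Nat.eq_zero_or_pos T with h0 | h0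
  · rw [h0]
    simp
  · have h2 : (0 : ℝ) < (T : ℝ) := by exact_mod_cast h0
    rw [one_div, inv_mul_le_iff₀ h2, mul_one]
    exact h1

/-- the sum of the products -/
theorem S_bound (hy : T_YBD) (hp : T_PRA) (m D q W h N H T n₀ : ℕ)
    (κ z : ℝ) (A : Fin m → Finset ℕ)
    (g : Fin m → ℕ → ℝ) (hm : 1 ≤ m) (hD : 2 ≤ D) (hq0 : 0 < q) (hA : ∀ l, A l ⊆ Finset.range W)
    (hg : ∀ l y, |g l y| ≤ 1)
    (hW : 0 < W) (hh : 0 < h) (hT : 0 < T) (hH : 0 < H) (hκ : 0 < κ) (hκ1 : κ ≤ 1) (hz : 0 < z)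
    (hzκ : z ≤ κ / 4) (hzm : (m : ℝ) * z ≤ 1 / 2) (h1 : (W : ℝ) ≤ z / 2 * h)
    (h2 : ((2 * h + 1) * W : ℝ) ≤ z / 2 * T)
    (hiv : ((iv N H q n₀).card : ℝ) ≤ (1 + z) * (H / q)) :
    2 * ∑ j ∈ Finset.Ico 1 D, ((D : ℝ) - j) * ∑ n ∈ iv N H q n₀, ∏ l, yy W A g T l j n ≤
      (D : ℝ) ^ 2 * mm q W A H T * (2 * Real.sqrt (1 - κ / 4) ^ m * (1 + z) +
        16 * ((q : ℝ) / H * ∑ n ∈ iv N H q n₀, av T (bb D W κ h A g) n)) := by
  have hs0 : 0 ≤ Real.sqrt (1 - κ / 4) ^ m := pow_nonneg (Real.sqrt_nonneg _) m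
  have hD2 : (2 : ℝ) ≤ D := by exact_mod_cast hD
  have hqpos : (0 : ℝ) < q := by exact_mod_cast hq0
  have hHpos : (0 : ℝ) < H := by exact_mod_cast hH
  have hP : (0 : ℝ) ≤ ∏ l, ((A l).card * ((T : ℝ) / W)) :=
    Finset.prod_nonneg fun l _ => by positivity
  obtain ⟨e, he0⟩ : ∃ e : ℝ, e = ∑ n ∈ iv N H q n₀, av T (bb D W κ h A g) n := ⟨_, rfl⟩
  have hepos : 0 ≤ e := by
    rw [he0]
    exact Finset.sum_nonneg fun n _ => av_nonneg T _ (bb_nonneg D W hD κ h A g) n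
  rw [← he0]
  have he : ∑ j ∈ Finset.Ico 1 D, ∑ n ∈ iv N H q n₀,
      (1 / (m : ℝ) * ∑ l, vv W κ h A g T l j n) ≤ D * e := by
    rw [Finset.sum_comm]
    calc ∑ n ∈ iv N H q n₀, ∑ j ∈ Finset.Ico 1 D, (1 / (m : ℝ) * ∑ l, vv W κ h A g T l j n)
        = ∑ n ∈ iv N H q n₀, ((D : ℝ) - 1) *
          (1 / (T : ℝ) * ∑ s ∈ Finset.Icc 1 T, bb D W κ h A g (n + s)) :=
          Finset.sum_congr rfl fun n _ => vv_sum hm D W hD κ h A g T n
      _ = ((D : ℝ) - 1) * e := by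
          rw [he0, Finset.mul_sum]
          rfl
      _ ≤ D * e := mul_le_mul_of_nonneg_right (by linarith) hepos
  have hv : ∀ j n : ℕ, 0 ≤ 1 / (m : ℝ) * ∑ l, vv W κ h A g T l j n := fun j n =>
    mul_nonneg (by positivity) (Finset.sum_nonneg fun l _ => vv_nonneg _ _ _ _ _ _ _ _ _)
  have key := sum_abs D (by omega) (iv N H q n₀) (fun j n => ∏ l, yy W A g T l j n)
    (fun j n => 1 / (m : ℝ) * ∑ l, vv W κ h A g T l j n)
    (∏ l, ((A l).card * ((T : ℝ) / W))) (2 * Real.sqrt (1 - κ / 4) ^ m) ((1 + z) * (H / q))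
    e hP (mul_nonneg zero_le_two hs0) hv
    (fun j n => prod_yy hy hp m W h T j n κ z A g hm hA hg hW hh hT hκ hκ1 hz hzκ hzm h1 h2)
    hiv he
  refine key.trans (le_of_eq ?_)
  unfold mm
  generalize (∏ l, (((A l).card : ℝ) * ((T : ℝ) / W))) = P
  generalize Real.sqrt (1 - κ / 4) ^ m = sm
  field_simp

/-- the end of the proof -/
theorem fin_abs (L X Y Q S M D z sm E ζ : ℝ) (hD : 0 < D) (hL : L ^ 2 ≤ X * ((Y / D ^ 2) *
    (D * Q + S))) (hXY : X * Y ≤ (1 + z) * M) (hQ : Q ≤ (1 + z) * M) (hQ0 : 0 ≤ Q)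
    (hS : S ≤ D ^ 2 * M * (2 * sm * (1 + z) + 16 * E)) (hS0 : 0 ≤ S) (hM : 0 ≤ M) (hz : 0 < z)
    (hz1 : z ≤ 1) (hsm : 0 ≤ sm) (hE : 0 ≤ E)
    (hzV : 3 * z * (1 / D + 4 * sm + 16 * E) ≤ ζ) :
    L ^ 2 ≤ M ^ 2 * (1 / D + 4 * sm + 16 * E + ζ) := by
  obtain ⟨V, hV⟩ : ∃ V : ℝ, V = 1 / D + 4 * sm + 16 * E := ⟨_, rfl⟩
  rw [← hV] at hzV ⊢
  have hVpos : 0 < V := by
    rw [hV]
    positivity
  have hZ : D * Q + S ≤ D * ((1 + z) * M) + D ^ 2 * M * (2 * sm * (1 + z) + 16 * E) :=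
    add_le_add (mul_le_mul_of_nonneg_left hQ hD.le) hS
  have hZ0 : 0 ≤ D * Q + S := by positivity
  have hfin : L ^ 2 ≤ ((1 + z) * M) / D ^ 2 *
      (D * ((1 + z) * M) + D ^ 2 * M * (2 * sm * (1 + z) + 16 * E)) := by
    refine hL.trans ?_
    calc X * ((Y / D ^ 2) * (D * Q + S)) = (X * Y) / D ^ 2 * (D * Q + S) := by ring
      _ ≤ ((1 + z) * M) / D ^ 2 * (D * Q + S) := by
          apply mul_le_mul_of_nonneg_right _ hZ0
          exact div_le_div_of_nonneg_right hXY (by positivity)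
      _ ≤ _ := by
          apply mul_le_mul_of_nonneg_left hZ
          positivity
  have hfin2 : ((1 + z) * M) / D ^ 2 *
      (D * ((1 + z) * M) + D ^ 2 * M * (2 * sm * (1 + z) + 16 * E)) =
      M ^ 2 * ((1 + z) * ((1 + z) * (1 / D) + (2 * sm * (1 + z) + 16 * E))) := by
    field_simp
  rw [hfin2] at hfin
  refine hfin.trans ?_
  apply mul_le_mul_of_nonneg_left _ (sq_nonneg M)
  have h7 : (1 + z) * (1 / D) + (2 * sm * (1 + z) + 16 * E) ≤ (1 + z) * V := by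
    rw [hV]
    have h8 : 0 ≤ (1 + z) * (2 * sm) := by positivity
    have h9 : 0 ≤ z * (16 * E) := by positivity
    linarith
  calc (1 + z) * ((1 + z) * (1 / D) + (2 * sm * (1 + z) + 16 * E))
      ≤ (1 + z) * ((1 + z) * V) := mul_le_mul_of_nonneg_left h7 (by linarith)
    _ = V + z * V * 2 + z * z * V := by ring
    _ ≤ V + z * V * 2 + 1 * z * V := by
        have : z * z * V ≤ 1 * z * V :=
          mul_le_mul_of_nonneg_right (mul_le_mul_of_nonneg_right hz1 hz.le) hVpos.le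
        linarith
    _ ≤ V + ζ := by linarith

theorem da1 (hq : T_DTQ) (hy : T_YBD) (hp : T_PRA) (hn : T_NRM) (hc : T_CNT) : T_DA1 := by
  intro m D κ hm hD hκ hκ1 q W hq0 hqW hW ζ hζ
  have hsm : 0 ≤ Real.sqrt (1 - κ / 4) ^ m := pow_nonneg (Real.sqrt_nonneg _) m
  have hD2 : (2 : ℝ) ≤ D := by exact_mod_cast hD
  have hDpos : (0 : ℝ) < D := by linarith
  have hmpos : (0 : ℝ) < m := by exact_mod_cast hm
  have hqpos : (0 : ℝ) < q := by exact_mod_cast hq0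
  have hWpos : (0 : ℝ) < W := by exact_mod_cast hW
  obtain ⟨V, hV⟩ : ∃ V : ℝ, V = 1 / (D : ℝ) + 4 * Real.sqrt (1 - κ / 4) ^ m + 32 := ⟨_, rfl⟩
  have hVpos : 0 < V := by
    rw [hV]
    positivity
  obtain ⟨z, hz0, hzκ, hzm, hz1, hzV⟩ : ∃ z : ℝ, 0 < z ∧ z ≤ κ / 4 ∧ (m : ℝ) * z ≤ 1 / 2 ∧
      z ≤ 1 ∧ 3 * z * V ≤ ζ := by
    refine ⟨min (min (κ / 4) (1 / (2 * m))) (min 1 (ζ / (3 * V))), ?_, ?_, ?_, ?_, ?_⟩
    · exact lt_min (lt_min (by positivity) (by positivity)) (lt_min one_pos (by positivity))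
    · exact (min_le_left _ _).trans (min_le_left _ _)
    · have h1 : min (min (κ / 4) (1 / (2 * m))) (min 1 (ζ / (3 * V))) ≤ 1 / (2 * (m : ℝ)) :=
        (min_le_left _ _).trans (min_le_right _ _)
      calc (m : ℝ) * _ ≤ (m : ℝ) * (1 / (2 * (m : ℝ))) := mul_le_mul_of_nonneg_left h1 hmpos.le
        _ = 1 / 2 := by field_simp
    · exact (min_le_right _ _).trans (min_le_left _ _)
    · have h1 : min (min (κ / 4) (1 / (2 * m))) (min 1 (ζ / (3 * V))) ≤ ζ / (3 * V) :=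
        (min_le_right _ _).trans (min_le_right _ _)
      rw [le_div_iff₀ (by positivity)] at h1
      linarith
  refine ⟨⌈2 * W / z⌉₊ + 1, fun h hh => ?_⟩
  obtain ⟨K₀, hK₀⟩ := hn m D q W z (by omega) hq0 hW hz0
  refine ⟨K₀ + q + ⌈2 * ((2 * h + 1) * W) / z⌉₊ + ⌈q / z⌉₊ + 1, ?_⟩
  intro n₀ τ A g hA hAm hg N H T hKH hHN hKT w hw
  have hh0 : 0 < h := by omega
  have hT0 : 0 < T := by omega
  have hH0 : 0 < H := by omega
  have hHpos : (0 : ℝ) < H := by exact_mod_cast hH0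
  -- the conditions on `h`, `T` and `H`
  have hc1 : (W : ℝ) ≤ z / 2 * h := by
    have h1 : 2 * (W : ℝ) / z ≤ h := by
      calc 2 * (W : ℝ) / z ≤ ⌈2 * (W : ℝ) / z⌉₊ := Nat.le_ceil _
        _ ≤ h := by exact_mod_cast (by omega : ⌈2 * (W : ℝ) / z⌉₊ ≤ h)
    rw [div_le_iff₀ hz0] at h1
    linarith
  have hc2 : ((2 * h + 1) * W : ℝ) ≤ z / 2 * T := by
    have h1 : 2 * ((2 * (h : ℝ) + 1) * W) / z ≤ T := by
      calc 2 * ((2 * (h : ℝ) + 1) * W) / z ≤ ⌈2 * ((2 * (h : ℝ) + 1) * W) / z⌉₊ := Nat.le_ceil _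
        _ ≤ T := by exact_mod_cast (by omega : ⌈2 * ((2 * (h : ℝ) + 1) * W) / z⌉₊ ≤ T)
    rw [div_le_iff₀ hz0] at h1
    linarith
  have hc3 : (q : ℝ) ≤ z * H := by
    have h1 : (q : ℝ) / z ≤ H := by
      calc (q : ℝ) / z ≤ ⌈(q : ℝ) / z⌉₊ := Nat.le_ceil _
        _ ≤ H := by exact_mod_cast (by omega : ⌈(q : ℝ) / z⌉₊ ≤ H)
    rw [div_le_iff₀ hz0] at h1
    linarith
  obtain ⟨hN1, hN2⟩ := hK₀ A H T (by omega) (by omega)
  have hL := hq m q W n₀ D τ A g w N H T hq0 hW hqW (by omega) hA hAm hg hw hHN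
  have hiv : ((iv N H q n₀).card : ℝ) ≤ (1 + z) * (H / q) := by
    have h4 := ((hc q 0 H ∅ hq0 (Finset.empty_subset _)).2.2 N n₀ hHN).1
    have h5 : (1 : ℝ) ≤ z * (H / q) := by
      rw [← mul_div_assoc, le_div_iff₀ hqpos]
      linarith
    linarith
  have hSb := S_bound hy hp m D q W h N H T n₀ κ z A g hm hD hq0 hA hg hW hh0 hT0 hH0 hκ hκ1
    hz0 hzκ hzm hc1 hc2 hiv
  have hS0 : 0 ≤ 2 * ∑ j ∈ Finset.Ico 1 D, ((D : ℝ) - j) *
      ∑ n ∈ iv N H q n₀, ∏ l, yy W A g T l j n := by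
    refine mul_nonneg zero_le_two (Finset.sum_nonneg fun j hj => mul_nonneg ?_
      (Finset.sum_nonneg fun n _ => Finset.prod_nonneg fun l _ => abs_nonneg _))
    have : (j : ℝ) ≤ D := by
      exact_mod_cast (Finset.mem_Ico.1 hj).2.le
    linarith
  have hpp0 : 0 ≤ pp W A T := Finset.prod_nonneg fun l _ => by positivity
  have hM0 : 0 ≤ mm q W A H T :=
    mul_nonneg (by positivity) (Finset.prod_nonneg fun l _ => by positivity)
  obtain ⟨E, hE⟩ : ∃ E : ℝ, E = (q : ℝ) / H * ∑ n ∈ iv N H q n₀, av T (bb D W κ h A g) n :=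
    ⟨_, rfl⟩
  have hE0 : 0 ≤ E := by
    rw [hE]
    exact mul_nonneg (by positivity)
      (Finset.sum_nonneg fun n _ => av_nonneg T _ (bb_nonneg D W hD κ h A g) n)
  have hE2 : E ≤ 2 := by
    have h1 : ∑ n ∈ iv N H q n₀, av T (bb D W κ h A g) n ≤ (1 + z) * (H / q) := by
      calc ∑ n ∈ iv N H q n₀, av T (bb D W κ h A g) n ≤ ∑ _n ∈ iv N H q n₀, (1 : ℝ) :=
            Finset.sum_le_sum fun n _ => av_le_one T _ (bb_le_one D W hD κ h A g) n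
        _ = ((iv N H q n₀).card : ℝ) := by simp
        _ ≤ _ := hiv
    calc E ≤ (q : ℝ) / H * ((1 + z) * (H / q)) := by
          rw [hE]
          exact mul_le_mul_of_nonneg_left h1 (by positivity)
      _ = 1 + z := by field_simp
      _ ≤ 2 := by linarith
  change (lhs q n₀ τ (gc W A g) w N H T) ^ 2 ≤ (mm q W A H T) ^ 2 *
    (1 / (D : ℝ) + 4 * Real.sqrt (1 - κ / 4) ^ m +
      16 * ((q : ℝ) / H * ∑ n ∈ iv N H q n₀, av T (bb D W κ h A g) n) + ζ)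
  rw [← hE] at hSb ⊢
  refine fin_abs _ _ _ _ _ _ D z _ E ζ hDpos hL hN1 hN2 (mul_nonneg (by positivity) hpp0) hSb
    hS0 hM0 hz0 hz1 hsm hE0 ?_
  refine le_trans ?_ hzV
  refine mul_le_mul_of_nonneg_left ?_ (by positivity)
  rw [hV]
  linarith

end Pool.Agent.H44.MCB
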