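import Pool.Agent.H28.MCB.Targets
import Pool.Agent.H23.MCL.ERR
import Pool.Agent.H35.MCL.CNT

/-!
Row ERN of the project MCB (`MP_c59857_nt`): the number of the errors.
-/

set_option autoImplicit false

open Pool.Agent.H28.MCL Pool.Agent.H28.MCB Finset Filter

namespace Pool.Agent.H44.MCB

open Pool.Agent.H24.T2 (Fr)
open Pool.Agent.H27.T2 (good)
open Pool.Agent.H23.MCL (err_cases)

/-- the number of `n ≤ N` with `d ^ 2 ∣ n + a` -/
theorem card_sq (a : ℤ) (N d : ℕ) (hd : 0 < d) :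
    (((Finset.Icc 1 N).filter fun n : ℕ => (d : ℤ) ^ 2 ∣ (n : ℤ) + a).card : ℝ) ≤
      (N : ℝ) / (d : ℝ) ^ 2 + 1 := by
  have hd2 : 0 < d ^ 2 := by positivity
  have hc := (Pool.Agent.H35.MCL.cnt (d ^ 2) 0 N ∅ hd2 (Finset.empty_subset _)).2.2 N
    ((-a) % ((d ^ 2 : ℕ) : ℤ)).toNat le_rfl
  have h1 : ((Finset.Icc 1 N).filter fun n : ℕ => (d : ℤ) ^ 2 ∣ (n : ℤ) + a) ⊆
      iv N N (d ^ 2) ((-a) % ((d ^ 2 : ℕ) : ℤ)).toNat := by
    intro n hn
    rw [Finset.mem_filter, Finset.mem_Icc] at hn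
    unfold iv
    rw [Finset.mem_filter, Finset.mem_Ioc]
    refine ⟨by omega, ?_⟩
    have hpos : (0 : ℤ) < ((d ^ 2 : ℕ) : ℤ) := by exact_mod_cast hd2
    have h2 : ((((-a) % ((d ^ 2 : ℕ) : ℤ)).toNat : ℕ) : ℤ) = (-a) % ((d ^ 2 : ℕ) : ℤ) :=
      Int.toNat_of_nonneg (Int.emod_nonneg _ hpos.ne')
    rw [← Int.natCast_modEq_iff, h2]
    have h3 : (((d ^ 2 : ℕ) : ℤ)) ∣ -a - (n : ℤ) := by
      have h4 : (((d ^ 2 : ℕ) : ℤ)) ∣ (n : ℤ) + a := by
        have := hn.2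
        push_cast
        exact this
      have h5 := h4.neg_right
      have e : -((n : ℤ) + a) = -a - n := by ring
      rwa [e] at h5
    have h6 : (n : ℤ) ≡ -a [ZMOD ((d ^ 2 : ℕ) : ℤ)] := Int.modEq_iff_dvd.2 h3
    exact h6.trans (Int.mod_modEq _ _).symm
  have h2 : (((Finset.Icc 1 N).filter fun n : ℕ => (d : ℤ) ^ 2 ∣ (n : ℤ) + a).card : ℝ) ≤
      ((iv N N (d ^ 2) ((-a) % ((d ^ 2 : ℕ) : ℤ)).toNat).card : ℝ) := by
    exact_mod_cast Finset.card_le_card h1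
  refine h2.trans (hc.1.trans (le_of_eq ?_))
  push_cast
  rfl

theorem ind_le_one' (P : ℕ → Prop) (n : ℕ) : ind P n ≤ 1 := by
  unfold ind
  split_ifs <;> norm_num

theorem ind_nonneg' (P : ℕ → Prop) (n : ℕ) : 0 ≤ ind P n := by
  unfold ind
  split_ifs <;> norm_num

/-- the number of `n ≤ N` with `p ^ 2 ∣ n + a` for a large prime `p` -/
theorem cnt_sq (a : ℤ) (w N : ℕ) (hw : 0 < w) (haN : a.natAbs ≤ N) :
    ∑ n ∈ Finset.Icc 1 N, ind (fun n => 0 < (n : ℤ) + a ∧ ∃ p : ℕ, p.Prime ∧ w < p ∧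
      (p : ℤ) ^ 2 ∣ (n : ℤ) + a) n ≤ N / w + Nat.sqrt (2 * N) := by
  classical
  have hwr : (0 : ℝ) < w := by exact_mod_cast hw
  set D : ℕ := Nat.sqrt (2 * N) with hD
  have h1 : ∀ n ∈ Finset.Icc 1 N, ind (fun n => 0 < (n : ℤ) + a ∧ ∃ p : ℕ, p.Prime ∧ w < p ∧
      (p : ℤ) ^ 2 ∣ (n : ℤ) + a) n ≤
      ∑ d ∈ Finset.Ioc w D, if (d : ℤ) ^ 2 ∣ (n : ℤ) + a then (1 : ℝ) else 0 := by
    intro n hn
    rw [Finset.mem_Icc] at hn
    have hs0 : ∀ d ∈ Finset.Ioc w D, (0 : ℝ) ≤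
        if (d : ℤ) ^ 2 ∣ (n : ℤ) + a then (1 : ℝ) else 0 := by
      intro d _
      split_ifs <;> norm_num
    by_cases h : 0 < (n : ℤ) + a ∧ ∃ p : ℕ, p.Prime ∧ w < p ∧ (p : ℤ) ^ 2 ∣ (n : ℤ) + a
    · obtain ⟨h0, p, -, hwp, hp⟩ := h
      have e2 : (p : ℤ) ^ 2 ≤ (n : ℤ) + a := Int.le_of_dvd h0 hp
      have e3 : (p : ℤ) ^ 2 ≤ 2 * (N : ℤ) := by omega
      have e4 : p ^ 2 ≤ 2 * N := by exact_mod_cast e3
      have e5 : p ≤ D := by
        rw [hD, Nat.le_sqrt']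
        exact e4
      have e6 := Finset.single_le_sum hs0 (Finset.mem_Ioc.2 ⟨hwp, e5⟩)
      rw [if_pos hp] at e6
      exact (ind_le_one' _ _).trans e6
    · have e : ind (fun n => 0 < (n : ℤ) + a ∧ ∃ p : ℕ, p.Prime ∧ w < p ∧
          (p : ℤ) ^ 2 ∣ (n : ℤ) + a) n = 0 := by
        unfold ind
        exact if_neg h
      rw [e]
      exact Finset.sum_nonneg hs0
  refine (Finset.sum_le_sum h1).trans ?_
  rw [Finset.sum_comm]
  have h2 : ∀ d ∈ Finset.Ioc w D, ∑ n ∈ Finset.Icc 1 N,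
      (if (d : ℤ) ^ 2 ∣ (n : ℤ) + a then (1 : ℝ) else 0) ≤ N * ((d : ℝ) ^ 2)⁻¹ + 1 := by
    intro d hd
    rw [Finset.mem_Ioc] at hd
    rw [Finset.sum_boole, ← div_eq_mul_inv]
    exact card_sq a N d (by omega)
  refine (Finset.sum_le_sum h2).trans ?_
  rw [Finset.sum_add_distrib, ← Finset.mul_sum]
  have h3 : ∑ d ∈ Finset.Ioc w D, ((d : ℝ) ^ 2)⁻¹ ≤ 1 / w := by
    by_cases hwD : w ≤ D
    · have h4 := sum_Ioc_inv_sq_le_sub (α := ℝ) (k := w) (n := D) hw.ne' hwD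
      refine h4.trans ?_
      have h5 : (0 : ℝ) ≤ ((D : ℝ))⁻¹ := by positivity
      rw [one_div]
      linarith
    · rw [Finset.Ioc_eq_empty (by omega), Finset.sum_empty]
      positivity
  have h4 : ∑ _d ∈ Finset.Ioc w D, (1 : ℝ) ≤ D := by
    rw [Finset.sum_const, nsmul_eq_mul, mul_one, Nat.card_Ioc]
    exact_mod_cast Nat.sub_le _ _
  have h5 : (N : ℝ) * ∑ d ∈ Finset.Ioc w D, ((d : ℝ) ^ 2)⁻¹ ≤ N * (1 / w) :=
    mul_le_mul_of_nonneg_left h3 (Nat.cast_nonneg _)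
  have h6 : (N : ℝ) * (1 / w) = N / w := by ring
  linarith

theorem ern : T_ERN := by
  classical
  intro r α ε q n₀ w W hα hε hq hw hW hqW hp
  set Y : ℕ := ∑ i, (α i).natAbs with hY
  have hwr : (0 : ℝ) < w := by exact_mod_cast hw
  refine ⟨Y * w + Y + 2 * w ^ 2 + 1, fun N hN => ?_⟩
  have hYN : Y ≤ N := by
    have : 0 ≤ Y * w := Nat.zero_le _
    omega
  -- the square root
  have hs : ((Nat.sqrt (2 * N) : ℕ) : ℝ) ≤ N / w := by
    rw [le_div_iff₀ hwr]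
    have h1 : Nat.sqrt (2 * N) * w ≤ N := by
      have h2 : Nat.sqrt (2 * N) * Nat.sqrt (2 * N) ≤ 2 * N := Nat.sqrt_le (2 * N)
      have h3 : 2 * w ^ 2 ≤ N := by omega
      by_contra hcon
      push Not at hcon
      have h4 : N * N < (Nat.sqrt (2 * N) * w) * (Nat.sqrt (2 * N) * w) :=
        Nat.mul_self_lt_mul_self hcon
      have h5 : (Nat.sqrt (2 * N) * w) * (Nat.sqrt (2 * N) * w) =
          (Nat.sqrt (2 * N) * Nat.sqrt (2 * N)) * w ^ 2 := by ring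
      have h6 : (Nat.sqrt (2 * N) * Nat.sqrt (2 * N)) * w ^ 2 ≤ (2 * N) * w ^ 2 :=
        Nat.mul_le_mul_right _ h2
      have h7 : (2 * N) * w ^ 2 ≤ N * N := by
        calc (2 * N) * w ^ 2 = N * (2 * w ^ 2) := by ring
          _ ≤ N * N := Nat.mul_le_mul_left _ h3
      omega
    exact_mod_cast h1
  have hYw : (Y : ℝ) ≤ N / w := by
    rw [le_div_iff₀ hwr]
    have : Y * w ≤ N := by omega
    exact_mod_cast this
  have h2 : ∀ n ∈ Finset.Icc 1 N, ind (fun y => y ≡ n₀ [MOD q] ∧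
      Fr α ε y ≠ if y % W ∈ good α q n₀ w W then gs (od α ε) y else 0) n ≤
      ∑ i, ind (fun n => 0 < (n : ℤ) + α i ∧ ∃ p : ℕ, p.Prime ∧ w < p ∧
        (p : ℤ) ^ 2 ∣ (n : ℤ) + α i) n +
        if n ∈ Finset.Icc 1 Y then (1 : ℝ) else 0 := by
    intro n hn
    rw [Finset.mem_Icc] at hn
    have hs0 : 0 ≤ ∑ i, ind (fun n => 0 < (n : ℤ) + α i ∧ ∃ p : ℕ, p.Prime ∧ w < p ∧
        (p : ℤ) ^ 2 ∣ (n : ℤ) + α i) n := Finset.sum_nonneg fun i _ => ind_nonneg' _ _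
    have hr0 : (0 : ℝ) ≤ if n ∈ Finset.Icc 1 Y then (1 : ℝ) else 0 := by
      split_ifs <;> norm_num
    by_cases hP : n ≡ n₀ [MOD q] ∧
        Fr α ε n ≠ if n % W ∈ good α q n₀ w W then gs (od α ε) n else 0
    · by_cases hr : n ∈ Finset.Icc 1 Y
      · rw [if_pos hr]
        have := ind_le_one' (fun y => y ≡ n₀ [MOD q] ∧
          Fr α ε y ≠ if y % W ∈ good α q n₀ w W then gs (od α ε) y else 0) n
        linarith
      · have hYn : Y < n := by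
          rw [Finset.mem_Icc] at hr
          omega
        have hpos : ∀ i, 0 < (n : ℤ) + α i := by
          intro i
          have h3 : (α i).natAbs ≤ Y :=
            Finset.single_le_sum (f := fun i => (α i).natAbs) (fun _ _ => Nat.zero_le _)
              (Finset.mem_univ i)
          omega
        have h3 : ∃ i, ∃ p : ℕ, p.Prime ∧ w < p ∧ (p : ℤ) ^ 2 ∣ (n : ℤ) + α i := by
          by_contra hcon
          refine hP.2 (err_cases α ε q n₀ w W hα hε hW hqW hp n hpos hP.1 fun i hi => ?_)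
          exact hcon ⟨i, hi⟩
        obtain ⟨i, hi⟩ := h3
        have e2 : ind (fun n => 0 < (n : ℤ) + α i ∧ ∃ p : ℕ, p.Prime ∧ w < p ∧
            (p : ℤ) ^ 2 ∣ (n : ℤ) + α i) n = 1 := by
          unfold ind
          exact if_pos ⟨hpos i, hi⟩
        have e3 := Finset.single_le_sum (f := fun i => ind (fun n => 0 < (n : ℤ) + α i ∧
            ∃ p : ℕ, p.Prime ∧ w < p ∧ (p : ℤ) ^ 2 ∣ (n : ℤ) + α i) n)
            (fun i _ => ind_nonneg' _ _) (Finset.mem_univ i)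
        rw [e2] at e3
        have e4 := ind_le_one' (fun y => y ≡ n₀ [MOD q] ∧
          Fr α ε y ≠ if y % W ∈ good α q n₀ w W then gs (od α ε) y else 0) n
        linarith
    · have e1 : ind (fun y => y ≡ n₀ [MOD q] ∧
          Fr α ε y ≠ if y % W ∈ good α q n₀ w W then gs (od α ε) y else 0) n = 0 := by
        unfold ind
        exact if_neg hP
      rw [e1]
      exact add_nonneg hs0 hr0
  refine (Finset.sum_le_sum h2).trans ?_
  rw [Finset.sum_add_distrib, Finset.sum_comm]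
  have h3 : ∑ i, ∑ n ∈ Finset.Icc 1 N, ind (fun n => 0 < (n : ℤ) + α i ∧ ∃ p : ℕ, p.Prime ∧
      w < p ∧ (p : ℤ) ^ 2 ∣ (n : ℤ) + α i) n ≤ ∑ _i : Fin r, ((N : ℝ) / w + N / w) := by
    refine Finset.sum_le_sum fun i _ => ?_
    have h4 : (α i).natAbs ≤ N := le_trans (Finset.single_le_sum
      (f := fun i => (α i).natAbs) (fun _ _ => Nat.zero_le _) (Finset.mem_univ i)) hYN
    have h5 := cnt_sq (α i) w N hw h4
    linarith
  rw [Finset.sum_const, Finset.card_univ, Fintype.card_fin, nsmul_eq_mul] at h3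
  have h4 : ∑ n ∈ Finset.Icc 1 N, (if n ∈ Finset.Icc 1 Y then (1 : ℝ) else 0) ≤ Y := by
    rw [← Finset.sum_filter, Finset.sum_const, nsmul_eq_mul, mul_one]
    have h1 : ((Finset.Icc 1 N).filter (fun n => n ∈ Finset.Icc 1 Y)).card ≤
        (Finset.Icc 1 Y).card := by
      apply Finset.card_le_card
      intro n hn
      exact (Finset.mem_filter.1 hn).2
    rw [Nat.card_Icc, Nat.add_sub_cancel] at h1
    exact_mod_cast h1
  have h5 : (4 * (r : ℝ) + 1) / w * N = r * (N / w + N / w) + N / w + 2 * (r * (N / w)) := by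
    ring
  have h6 : (0 : ℝ) ≤ 2 * (r * (N / w)) := by positivity
  rw [h5]
  linarith

end Pool.Agent.H44.MCB
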